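import Pool.Agent.H916D.Sign
import Pool.Agent.H916Q.Sign
import Pool.Agent.H916Y.Fams3
import Pool.Agent.H916N.Link

/-!
# The standard conjecture of Hodge type for Fermat varieties in positive characteristic

Let `p` be a prime not dividing `m`. Suppose that `m` is one of the degrees of `GoodDegree` (and
then `p` is arbitrary), or that `m = m'` or `m = 2 * m'` with `m'` odd and for each prime `q`
dividing `m'` the number `-1` is a power of `p` modulo the prime-to-`q` part of `m'` (there is no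
condition if `m'` is a power of a prime), or that `m` and `p` satisfy the quadratic residue conditions
of `ResiduePair`. Then, in any system of algebraic characters with signs in characteristic `p`, every
Tate character of degree `m` is algebraic and has sign `+1`.
-/

namespace Pool.Agent.Results.MP_361a6f_ag.FermatHodgeType

open Pool.Agent.H916T Pool.Agent.H916D

/-- All prime divisors of `m` are `2`, `a` or `b`. -/
def PrimesIn (m a b : ℕ) : Prop := ∀ r : ℕ, r.Prime → r ∣ m → r = 2 ∨ r = a ∨ r = b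

/-- The degrees treated in every characteristic: the prime divisors of `m` lie in `{2, 3, 5}`, or in
`{2, 3, 7}`, or in `{2, q}` for a prime `q` congruent to `7` modulo `8`, or `4` does not divide `m`
and they lie in `{2, 3, 11}` or in `{2, 3, 13}`. -/
def GoodDegree (m : ℕ) : Prop :=
  PrimesIn m 3 5 ∨ PrimesIn m 3 7 ∨ (∃ q : ℕ, q.Prime ∧ q % 8 = 7 ∧ PrimesIn m q q) ∨
    (¬ 4 ∣ m ∧ (PrimesIn m 3 11 ∨ PrimesIn m 3 13))

/-- The condition on `m` and `p`: `m = m'` or `m = 2 * m'` with `m'` odd, and for each prime `q`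
dividing `m'` the number `-1` is a power of `p` modulo the prime-to-`q` part of `m'`. -/
def GoodPair (p m : ℕ) : Prop :=
  ∃ m' : ℕ, 0 < m' ∧ (m = m' ∨ (m = 2 * m' ∧ Odd m')) ∧
    ∀ q : ℕ, q.Prime → q ∣ m' → ∃ j : ℕ, (p : ZMod (m' / q ^ m'.factorization q)) ^ j = -1

/-- `4` does not divide `m`, any two different odd primes dividing `m` are squares modulo each other,
and either `p` has odd order modulo `m`, or `p` is a square modulo every odd prime dividing `m` and
`-1` is a power of `p` modulo the prime-to-`l` part `m'` of `m`, for a prime `l` congruent to `3`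
modulo `4`. -/
def ResiduePair (p m : ℕ) : Prop :=
  ¬ 4 ∣ m ∧ (∀ q r : ℕ, q.Prime → r.Prime → Odd q → Odd r → q ∣ m → r ∣ m → q ≠ r →
    IsSquare ((q : ℕ) : ZMod r)) ∧
  (Odd (orderOf (p : ZMod m)) ∨
    ((∀ q : ℕ, q.Prime → Odd q → q ∣ m → IsSquare ((p : ℕ) : ZMod q)) ∧
      ∃ l a m' : ℕ, l.Prime ∧ l % 4 = 3 ∧ m = l ^ a * m' ∧ ¬ l ∣ m' ∧
        ∃ r : ℕ, (p : ZMod m') ^ r = -1))

theorem result (p : ℕ) (hp : p.Prime) (A : (m : ℕ) → Multiset (ZMod m) → Prop)
    (σ : (m : ℕ) → Multiset (ZMod m) → ℤˣ) (hA : SignSystem p A σ) (m : ℕ) (hm : 0 < m)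
    (hpm : p.Coprime m) (hC : GoodDegree m ∨ GoodPair p m ∨ ResiduePair p m)
    (s : Multiset (ZMod m)) (hs : IsTate p m s) (hne : s ≠ 0) : A m s ∧ σ m s = 1 := by
  rcases hC with hdeg | ⟨m', hm', h | ⟨h, hodd⟩, hC⟩ | ⟨hm4, hQR, hC⟩
  · have h : H916Y.Concl p m s := by
      rcases hdeg with h | h | ⟨q, hq, hq7, h⟩ | ⟨h4, h | h⟩
      · exact H916Y.all235 hp hm hpm h hs hne
      · exact H916Y.all237 hp hm hpm h hs hne
      · exact H916Y.allq7 hp hm hpm hq hq7
          (fun r hr hrm => (h r hr hrm).imp id (fun h' => h'.elim id id)) hs hne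
      · exact H916Y.all2311 hp hm h4 hpm h hs hne
      · exact H916Y.all2313 hp hm h4 hpm h hs hne
    exact H916Q.sign_of_gen hA hm hpm hne h
  · exact sign_main hp hA m m' 1 (by omega) (by rw [h, one_mul]) (Or.inl rfl) hpm hC s hs hne
  · exact sign_main hp hA m m' 2 (by omega) h.symm (Or.inr ⟨rfl, hodd.not_two_dvd_nat⟩) hpm hC s
      hs hne
  · obtain ⟨k, n, hk, hkn, hn2⟩ : ∃ k n : ℕ, (k = 1 ∨ k = 2) ∧ k * n = m ∧ ¬ 2 ∣ n := by
      by_cases h : 2 ∣ m
      · obtain ⟨n, hn⟩ := h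
        refine ⟨2, n, Or.inr rfl, hn.symm, ?_⟩
        rintro ⟨x, hx⟩
        exact hm4 ⟨x, by rw [hn, hx]; ring⟩
      · exact ⟨1, m, Or.inl rfl, one_mul m, h⟩
    have hn : 0 < n := Nat.pos_of_ne_zero (by rintro rfl; exact hn2 (dvd_zero 2))
    have hodd : ∀ q : ℕ, q ∣ n → Odd q := by
      intro q hq
      rw [← Nat.not_even_iff_odd, even_iff_two_dvd]
      exact fun h => hn2 (h.trans hq)
    have hnm : n ∣ m := Dvd.intro_left k hkn
    have hPQR : H916Q.PQR n := by
      intro q r hq hr hqn hrn hne'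
      exact hQR q r hq hr (hodd q hqn) (hodd r hrn) (hqn.trans hnm) (hrn.trans hnm) hne'
    rcases hC with hf | ⟨hsq, l, a, m', hl, hl3, hm', hlm, r, hr⟩
    · exact H916Q.sign_qr hp hA hn hk hkn hn2 hpm hf hPQR hs hne
    · exact H916Q.sign_of_gen hA hm hpm hne (H916N.three_main hp hn hk hkn hn2 hpm hPQR
        (fun q hq hqn => hsq q hq (hodd q hqn) (hqn.trans hnm)) hl hl3 hm'.symm hlm hr hs hne)

end Pool.Agent.Results.MP_361a6f_ag.FermatHodgeType
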