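import Pool.Agent.H916Q.Sign
import Pool.Agent.H916Y.Conv

/-!
# A parity criterion for the standard conjecture of Hodge type on Fermat varieties

Let `m` be prime to the prime `p`. Two nonzero residues modulo `m` are linked if their orders have
the same prime divisors, or if both have even order, or if all their Stickelberger sums agree. In
any system of algebraic characters with signs in characteristic `p`, every Tate character `s` of
degree `m` which, after raising the degree and adding finitely many characters of surfaces, contains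
an even number of elements of each class of the equivalence relation generated by the links, is
algebraic and has sign `+1`.
-/

namespace Pool.Agent.Results.MP_361a6f_ag.FermatSigns

open Pool.Agent.H916T Pool.Agent.H916D

/-- Linked residues: two nonzero residues `a`, `b` modulo `m` such that the (additive) orders of `a`
and `b` have the same prime divisors, or both orders are even, or, for every unit `t` modulo `m`,
the representatives in `{1, ..., m - 1}` of the residues `p ^ j * t * a`, `0 ≤ j < f`, `f` being the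
order of `p` modulo `m`, have the same sum as those of the residues `p ^ j * t * b`. -/
def Linked (p m : ℕ) (a b : ZMod m) : Prop :=
  a ≠ 0 ∧ b ≠ 0 ∧
    ((addOrderOf a).primeFactors = (addOrderOf b).primeFactors ∨
      (Even (addOrderOf a) ∧ Even (addOrderOf b)) ∨
      ∀ t : (ZMod m)ˣ,
        ∑ j ∈ Finset.range (orderOf (p : ZMod m)), ((p : ZMod m) ^ j * ((t : ZMod m) * a)).val =
          ∑ j ∈ Finset.range (orderOf (p : ZMod m)), ((p : ZMod m) ^ j * ((t : ZMod m) * b)).val)

lemma W_val {p m : ℕ} [NeZero m] (hpm : p.Coprime m) {a : ZMod m} (ha : a ≠ 0) (t : (ZMod m)ˣ) :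
    W p ((t : ZMod m) * a) =
      2 * ((∑ j ∈ Finset.range (orderOf (p : ZMod m)),
        ((p : ZMod m) ^ j * ((t : ZMod m) * a)).val : ℕ) : ℤ) - orderOf (p : ZMod m) * m := by
  unfold W
  have hu := isUnit_p hpm
  have h1 : ∀ j ∈ Finset.range (orderOf (p : ZMod m)),
      H916R2.saw ((p : ZMod m) ^ j * ((t : ZMod m) * a)) =
        2 * ((((p : ZMod m) ^ j * ((t : ZMod m) * a)).val : ℕ) : ℤ) - m := by
    intro j _
    apply H916R2.saw_of_ne_zero
    intro h
    have h2 := ((hu.pow j).mul_right_eq_zero).mp h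
    exact ha ((t.isUnit.mul_right_eq_zero).mp h2)
  rw [Finset.sum_congr rfl h1, Finset.sum_sub_distrib, ← Finset.mul_sum]
  push_cast
  simp

lemma linked_iff {p m : ℕ} [NeZero m] (hpm : p.Coprime m) (a b : ZMod m) :
    H916Z.Link p a b ↔ Linked p m a b := by
  unfold H916Z.Link Linked
  constructor
  · rintro ⟨ha, hb, h | ⟨h1, h2⟩ | h⟩
    · exact ⟨ha, hb, Or.inl h⟩
    · exact ⟨ha, hb, Or.inr (Or.inl ⟨even_iff_two_dvd.mpr h1, even_iff_two_dvd.mpr h2⟩)⟩
    · refine ⟨ha, hb, Or.inr (Or.inr fun t => ?_)⟩
      have h1 := h t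
      rw [W_val hpm ha, W_val hpm hb] at h1
      have h2 : ((∑ j ∈ Finset.range (orderOf (p : ZMod m)),
          ((p : ZMod m) ^ j * ((t : ZMod m) * a)).val : ℕ) : ℤ) =
        ((∑ j ∈ Finset.range (orderOf (p : ZMod m)),
          ((p : ZMod m) ^ j * ((t : ZMod m) * b)).val : ℕ) : ℤ) := by linarith
      exact_mod_cast h2
  · rintro ⟨ha, hb, h | ⟨h1, h2⟩ | h⟩
    · exact ⟨ha, hb, Or.inl h⟩
    · exact ⟨ha, hb, Or.inr (Or.inl ⟨even_iff_two_dvd.mp h1, even_iff_two_dvd.mp h2⟩)⟩
    · refine ⟨ha, hb, Or.inr (Or.inr fun t => ?_)⟩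
      rw [W_val hpm ha, W_val hpm hb, h t]

open scoped Classical in
theorem result (p : ℕ) (hp : p.Prime) (A : (m : ℕ) → Multiset (ZMod m) → Prop)
    (σ : (m : ℕ) → Multiset (ZMod m) → ℤˣ) (hA : SignSystem p A σ) (m : ℕ) (hm : 0 < m)
    (hpm : p.Coprime m) (s : Multiset (ZMod m)) (hs : IsTate p m s) (hne : s ≠ 0)
    (N : ℕ) (hN : 0 < N) (hpN : p.Coprime N) (l : Multiset (Multiset (ZMod (N * m))))
    (hl : ∀ t ∈ l, SurfaceTate p (N * m) t)
    (hpar : ∀ a : ZMod (N * m),
      Even (Multiset.card (((s.map fun b => ((N * b.val : ℕ) : ZMod (N * m))) + l.sum).filter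
        fun b => Relation.EqvGen (Linked p (N * m)) a b))) :
    A m s ∧ σ m s = 1 := by
  have hz : NeZero m := ⟨hm.ne'⟩
  have hzM : NeZero (N * m) := ⟨(Nat.mul_pos hN hm).ne'⟩
  have hpM : p.Coprime (N * m) := Nat.Coprime.mul_right hpN hpm
  have hE : H916Z.Link p = Linked p (N * m) := by
    funext a b
    exact propext (linked_iff hpM a b)
  exact H916Q.sign_of_gen hA hm hpm hne
    (H916Y.parity_surf hp hm hN rfl hpM hs hne l hl (by
      intro a
      rw [hE, Multiset.countP_eq_card_filter]
      exact hpar a))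

end Pool.Agent.Results.MP_361a6f_ag.FermatSigns
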