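import Pool.Agent.H914R2.PMid

open CategoryTheory AlgebraicGeometry

universe u v w

namespace Pool.Agent.Results.MP_361a6f_ag.HodgeProducts

open Pool.Agent.H914 Pool.Agent.H914.VarClass Pool.Agent.H914.VarClass.Obj

/-- **The standard conjecture of Hodge type for all products of members of a family of varieties
whose transcendental cohomology lies in the middle degree and whose Frobenius eigenvalues satisfy
only the obvious multiplicative relations: together with the conjecture `D` it is equivalent to
the conjecture and the Riemann hypothesis for the members of the family.** -/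
theorem result {k : Type u} [Field k] {𝒱 : VarClass k} {ops : CycleOps 𝒱}
    (W : WeilCohomology.{u, v} ops) {ι : Type w} (P : ι → PolVar 𝒱) (q : ℕ) (hq : q ≠ 0)
    (hD : ∀ j, (P j).X.IsCyc 1 (P j).D) (hHL : ∀ j, HardLefschetz W (P j).X (P j).D)
    (hT : ∀ j, transcendental W (P j).X ≤ W.gr (P j).X (P j).X.dim)
    (hS : ∀ j, SquarefreeSpectrum W (P j).X (P j).f) (hN : NeatSpectrum W P q)
    (hF : ∀ Q, IsIteratedProduct ops P Q → FrobeniusOnCycles W Q.X Q.f q) :
    (∀ j, RiemannHypothesis W (P j).X (P j).f q ∧ HodgeType W (P j).X (P j).D) ↔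
      ∀ Q, IsIteratedProduct ops P Q → HodgeType W Q.X Q.D ∧ HomEqNum W Q.X :=
  hodge_products_iff hq hD hHL hT hS hN hF

end Pool.Agent.Results.MP_361a6f_ag.HodgeProducts
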