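import Pool.Agent.H914R2.GConv3

open CategoryTheory AlgebraicGeometry

universe u v

namespace Pool.Agent.Results.MP_361a6f_ag.HodgeSquare

open Pool.Agent.H914 Pool.Agent.H914.VarClass Pool.Agent.H914.VarClass.Obj

/-- **The standard conjecture of Hodge type for `X × X`, when the Frobenius endomorphism has
simple spectrum on the transcendental cohomology of `X`: together with the algebraicity of the
Kunneth projectors it is equivalent to the conjecture for `X` and the Riemann hypothesis.** -/
theorem result {k : Type u} [Field k] {𝒱 : VarClass k} {ops : CycleOps 𝒱}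
    (W : WeilCohomology.{u, v} ops) (X : 𝒱.Obj) (D : X.Cycles) (hD : X.IsCyc 1 D)
    (hdeg : 0 < X.V.degCycle (divPow ops D X.dim X.V.fundCycle))
    (hHL : HardLefschetz W X D) (hA : LefschetzA W X D) (f : X ⟶ X) (q : ℕ) (hq : 1 < q)
    (hF : FrobeniusOnCycles W (X.prod X) (squareMap f) q) (hS : SimpleSpectrum W X f) :
    (RiemannHypothesis W X f q ∧ HodgeType W X D) ↔
      (KunnethStd W X ∧ HodgeType W (X.prod X) (boxSum ops D)) :=
  hodge_square_iff hD hdeg hHL hA hq hF hS

end Pool.Agent.Results.MP_361a6f_ag.HodgeSquare
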